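import Pool.Agent.Helper7_MWHP.PSR

/-!
# Block MWHP, row PSL: push; letters `1` may come from the left into the common block (period `n`)
-/

set_option autoImplicit false

namespace Pool.Agent.MWHP.H60

open Pool.Agent.Helper14_MV Pool.Agent.Helper2_MV Pool.Agent.MVO Pool.Agent.MWL Pool.Agent.MWS
open Pool.Agent.MWA Pool.Agent.MWH Pool.Agent.MWH.H7 Pool.Agent.MWH.H60 Pool.Agent.MWHP.H7

/-- **PSL**. -/
theorem psl (nfe : NfeStmt) (okw : Pool.Agent.MWH.OkwStmt) (shw : ShwStmt) : PslStmt := by
  intro n β θ hβ hle k k' f a b a' b' i hf hV hV' hDa hDb hfi hai hbi hb'i h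
  have hsx : Vs a b i Stt.yx := fun h => by cases h
  have hso : Vs a b i Stt.ov := fun _ => Or.inr hbi
  refine push_gen nfe okw shw hβ hle hf hV hV' hDa hDb hsx hso ?_ ?_ ?_ h
  · rw [psh_only hV.ik fun j hj h1 h2 => (hfi j hj h1 h2).1]
    have h1 := hV.ai
    have h2 := hV'.ai
    omega
  · have h1 := psh_ge (f := f) (a := b) hV.ik
    exact Or.inr ⟨by omega, hb'i⟩
  · intro t ht
    have htv : Vs a b i t := by
      rcases ht with rfl | rfl
      · exact hsx
      · exact hso
    obtain ⟨o1, o2, o3, o4, o5, o6⟩ := okw k a b i t hV htv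
    obtain ⟨L, R, e, hL, hR⟩ := pshB_mid f (W a b i t) i k hV.ik
    have hR0 : R = [] := by
      rw [List.eq_nil_iff_forall_not_mem]
      intro c hc
      obtain ⟨j, h1, h2, h3, h4⟩ := hR c hc
      obtain ⟨h5, h6⟩ := hfi j h2 h3 (by omega)
      have h7 : b j = 0 := by
        rcases h6 with h6 | h6
        · omega
        · exact h6
      rw [W_empty (by omega) h5 h7] at h4
      exact absurd h4 (by simp)
    have hL1 : ∀ c ∈ L, c = 1 := by
      intro c hc
      obtain ⟨j, h1, h2, h3⟩ := hL c hc
      exact W_ones (by omega) (hfi j (by have := hV.ik; omega) h2 (by omega)).1 h3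
    have hL0 : (0 : ℕ) ∉ L := fun h => absurd (hL1 0 h) (by decide)
    rw [hR0, List.append_nil] at e
    rw [e]
    constructor
    · rw [← o5, bef_iff, bef_iff, pair_app]
      have h1 : List.Sublist [1, 0] (W a b i t i) := by
        by_contra hc
        have h2 := o5.1 ((bef_iff _ _ _).2 hc)
        rcases ht with rfl | rfl <;> cases h2
      exact ⟨fun h2 => absurd (Or.inr (Or.inr h1)) h2, fun h2 => absurd h1 h2⟩
    · rw [← o6, bef_iff, bef_iff, pair_app]
      constructor
      · intro h1 h2
        exact h1 (Or.inr (Or.inr h2))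
      · rintro h1 (h2 | ⟨h2, -⟩ | h2)
        · exact hL0 (h2.subset (by simp))
        · exact hL0 h2
        · exact h1 h2

end Pool.Agent.MWHP.H60
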