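import Pool.Agent.MWHP.StmtsN

/-!
Squad MWHP, row SATN: insertion of an absorbing letter (period `n`).
-/

set_option autoImplicit false

namespace Pool.Agent.MWHP.H60

open Pool.Agent.Helper14_MV Pool.Agent.Helper2_MV Pool.Agent.MVO Pool.Agent.MWL Pool.Agent.MWS
open Pool.Agent.MWA Pool.Agent.MWH

theorem deg_mono {k : ℕ} {a b : ℕ → ℕ} (h : ∀ j ≤ k, a j ≤ b j) : deg k a ≤ deg k b := by
  unfold deg
  apply Finset.sum_le_sum
  intro j hj
  rw [Finset.mem_range] at hj
  exact h j (by omega)

theorem satn (trn : MWL.TrnStmt) (abs : MWL.AbsStmt) (lrn : LrnnStmt) (chk : MWS.ChkStmt)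
    (rpn : RpnStmt) (dbn : DbnStmt) : SatnStmt := by
  intro n β θ hb hle k B hB i hi x hx hdeg hab P Q hPQ hcase
  have hn : 1 ≤ n := hb.pos
  by_cases h2 : 2 ≤ (B i).count x
  · have hmem : x ∈ B i := List.count_pos_iff.1 (by omega)
    rcases hcase with h | ⟨P', hP'⟩
    · exact absurd hmem h
    · have h1 : B i = P' ++ x :: Q := by
        rw [hPQ, hP', List.append_assoc, List.singleton_append]
      have h3 := rpn n β hb.itn k B hB i hi x P' Q 2 h1 h2
      have h4 : P' ++ (List.replicate (n * 2 + 1) x ++ Q) =
          P ++ (List.replicate (2 * n) x ++ Q) := by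
        rw [hP', List.append_assoc, List.singleton_append, mul_comm n 2, List.replicate_succ,
          List.cons_append]
      rw [h4] at h3
      exact hle _ _ h3
  · have hcnt : (B i).count x ≤ 1 := by omega
    -- the splittings
    have hsp : ∀ j, ∃ p : List ℕ × List ℕ, (x ∉ B j ∧ B j = p.1 ++ p.2) ∨
        (x ∈ B j ∧ B j = p.1 ++ x :: p.2) := by
      intro j
      by_cases hj : x ∈ B j
      · obtain ⟨s, t, h⟩ := List.append_of_mem hj
        exact ⟨(s, t), Or.inr ⟨hj, h⟩⟩
      · exact ⟨(B j, []), Or.inl ⟨hj, by simp⟩⟩
    have hspi : ∃ p : List ℕ × List ℕ, ((x ∉ B i ∧ B i = p.1 ++ p.2) ∨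
        (x ∈ B i ∧ B i = p.1 ++ x :: p.2)) ∧
        p.1 ++ List.replicate ((B i).count x + 2 * n) x ++ p.2 =
          P ++ (List.replicate (2 * n) x ++ Q) := by
      rcases hcase with h | ⟨P', hP'⟩
      · refine ⟨(P, Q), Or.inl ⟨h, hPQ⟩, ?_⟩
        have h0 : (B i).count x = 0 := List.count_eq_zero.2 h
        rw [h0, zero_add, List.append_assoc]
      · have h1 : B i = P' ++ x :: Q := by
          rw [hPQ, hP', List.append_assoc, List.singleton_append]
        have hmem : x ∈ B i := by
          rw [h1]
          simp
        refine ⟨(P', Q), Or.inr ⟨hmem, h1⟩, ?_⟩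
        have h0 : (B i).count x = 1 := by
          have := List.count_pos_iff.2 hmem
          omega
        rw [h0, hP', add_comm 1 (2 * n), List.replicate_succ, List.append_assoc,
          List.append_assoc, List.singleton_append, List.cons_append]
    choose p0 hp0 using hsp
    obtain ⟨q0, hq0, hq1⟩ := hspi
    let PP : ℕ → List ℕ := fun j => if j = i then q0.1 else (p0 j).1
    let QQ : ℕ → List ℕ := fun j => if j = i then q0.2 else (p0 j).2
    have hPP : ∀ j, (x ∉ B j ∧ B j = PP j ++ QQ j) ∨ (x ∈ B j ∧ B j = PP j ++ x :: QQ j) := by
      intro j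
      by_cases hj : j = i
      · subst hj
        simp only [PP, QQ, if_true]
        exact hq0
      · simp only [PP, QQ, if_neg hj]
        exact hp0 j
    let c : ℕ → ℕ := fun j => if 2 ≤ (B j).count x then n + 1 else (B j).count x
    let d : ℕ → ℕ := fun j => if 2 ≤ (B j).count x then (n - 1) * (B j).count x + 1 else 0
    have hci : c i = (B i).count x := by
      simp only [c]
      rw [if_neg h2]
    have hblk : ∀ j, PP j ++ List.replicate (c j) x ++ QQ j = B j ∨
        ∃ (x1 : ℕ) (P Q : List ℕ) (m : ℕ), 2 ≤ (B j).count x1 ∧
          B j = P ++ x1 :: Q ∧ PP j ++ List.replicate (c j) x ++ QQ j =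
            P ++ (List.replicate (n * m + 1) x1 ++ Q) := by
      intro j
      rcases hPP j with ⟨h1, h3⟩ | ⟨h1, h3⟩
      · left
        have h0 : c j = 0 := by
          have := List.count_eq_zero.2 h1
          simp only [c]
          rw [this, if_neg (by norm_num)]
        rw [h0]
        simpa using h3.symm
      · have h4 := List.count_pos_iff.2 h1
        by_cases h5 : 2 ≤ (B j).count x
        · right
          refine ⟨x, PP j, QQ j, 1, h5, h3, ?_⟩
          have h0 : c j = n + 1 := by
            simp only [c]
            rw [if_pos h5]
          rw [h0, mul_one, List.append_assoc]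
        · left
          have h0 : c j = 1 := by
            simp only [c]
            rw [if_neg h5]
            omega
          rw [h0]
          simpa using h3.symm
    -- the vector
    have hR : (FC.ofFIC θ).R k (fun j => ty B x j + d j) c := by
      apply (abs n (FC.ofFIC θ) (lrn n β θ hb hle) k (fun j => ty B x j + d j)).2
      intro j _
      by_cases h5 : 2 ≤ (B j).count x
      · right
        have e1 : d j = (n - 1) * (B j).count x + 1 := by
          simp only [d]
          rw [if_pos h5]
        have e2 : c j = n + 1 := by
          simp only [c]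
          rw [if_pos h5]
        have e3 : ty B x j + d j = n * (B j).count x + 1 := by
          show (B j).count x + d j = _
          rw [e1]
          obtain ⟨m, rfl⟩ : ∃ m, n = m + 1 := ⟨n - 1, by omega⟩
          rw [Nat.add_sub_cancel]
          ring
        have e4 : 1 ≤ n * (B j).count x := by
          have : 1 * 1 ≤ n * (B j).count x := Nat.mul_le_mul hn (by omega)
          omega
        refine ⟨⟨?_, j, le_refl j, ?_⟩, ⟨?_, j, le_refl j, ?_⟩, ?_⟩
        · show ty B x j + d j ≠ 0
          rw [e3]
          omega
        · show 2 ≤ ty B x j + d j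
          rw [e3]
          omega
        · rw [e2]
          omega
        · rw [e2]
          omega
        · show ty B x j + d j ≡ c j [MOD n]
          rw [e3, e2]
          simp [Nat.ModEq]
      · left
        show (B j).count x + d j = c j
        simp only [c, d]
        rw [if_neg h5, if_neg h5, add_zero]
    have hab1 : Ab n (FC.ofFIC θ) k (fun j => ty B x j + d j) i :=
      (trn n (FC.ofFIC θ) k (ty B x) i).2.1 d hab
    have habc : Ab n (FC.ofFIC θ) k c i :=
      ((trn n (FC.ofFIC θ) k (fun j => ty B x j + d j) i).1 c hR).1 hab1
    have h6 := chk θ k c (ad n c i) x PP QQ habc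
    have h7 : RR β (asm k B) (asm k (fun j => PP j ++ List.replicate (c j) x ++ QQ j)) :=
      (dbn n β hb.itn k B _ hB (fun j _ => hblk j)).2
    -- the new family
    have hcount : ∀ j c', (B j).count c' ≤
        (Function.update B i (P ++ (List.replicate (2 * n) x ++ Q)) j).count c' := by
      intro j c'
      by_cases hj : j = i
      · subst hj
        rw [Function.update_self, hPQ, List.count_append, List.count_append, List.count_append]
        omega
      · rw [Function.update_of_ne hj]
    have hB3 : OkB k (Function.update B i (P ++ (List.replicate (2 * n) x ++ Q))) := by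
      have hm : ∀ j ≤ k, ∀ c' ∈ Function.update B i (P ++ (List.replicate (2 * n) x ++ Q)) j,
          c' = x ∨ c' ∈ B j := by
        intro j _ c' hc'
        by_cases hj : j = i
        · subst hj
          rw [Function.update_self] at hc'
          rw [hPQ]
          simp only [List.mem_append, List.mem_replicate] at hc' ⊢
          tauto
        · rw [Function.update_of_ne hj] at hc'
          exact Or.inr hc'
      refine ⟨?_, ?_⟩
      · intro j hj c' hc'
        rcases hm j hj c' hc' with h | h
        · rw [h]
          exact hx
        · exact hB.ok j hj c' h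
      · intro j hj c' hc'
        have h8 : deg k (fun j => (B j).count c') ≤
            deg k (fun j =>
              (Function.update B i (P ++ (List.replicate (2 * n) x ++ Q)) j).count c') :=
          deg_mono (fun j _ => hcount j c')
        rcases hm j hj c' hc' with h | h
        · rw [h] at h8 ⊢
          exact hdeg.trans h8
        · exact (hB.ml j hj c' h).trans h8
    have h9 : RR β (asm k (Function.update B i (P ++ (List.replicate (2 * n) x ++ Q))))
        (asm k (fun j => PP j ++ List.replicate (ad n c i j) x ++ QQ j)) := by
      apply (dbn n β hb.itn k _ _ hB3 _).2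
      intro j _
      by_cases hj : j = i
      · left
        subst hj
        rw [Function.update_self]
        have h10 : ad n c j j = (B j).count x + 2 * n := by
          show c j + (if j = j then 2 * n else 0) = _
          rw [if_pos rfl, hci]
        rw [h10]
        simp only [PP, QQ, if_true]
        exact hq1
      · rw [Function.update_of_ne hj]
        have h10 : ad n c i j = c j := by
          simp [ad, hj]
        rw [h10]
        exact hblk j
    exact θ.trans (hle _ _ h7) (θ.trans h6 (hle _ _ h9.symm))

end Pool.Agent.MWHP.H60
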